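import Pool.Agent.N922.PQ.Final
import Pool.Agent.N922.PQ.Odd

/-!
# The 2-primary part of the Tate-Shafarevich group over a Galois 2-extension `K / ℚ` is trivial for a
# positive proportion of all elliptic curves over `ℚ`

Let `K / ℚ` be ANY finite Galois extension of 2-power degree in which the prime `2` splits completely
(`K` embeds in `ℚ_2`; `K = ℚ` is allowed; no other condition, the Galois group and the ramification are
arbitrary).

Theorem. Among ALL elliptic curves `E / ℚ`, ordered by height, a positive proportion has trivial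
2-Selmer group over `K`. For these curves `Ш(E / K)[2^∞] = 0` and `E(K)` is finite of odd order.

The method (Selmer groups relaxed at primes which split completely, lattices with a self-adjoint
operator, reduction theory, quadratic reciprocity, linear algebra over `F_2`, descent along quadratic
steps) is explained in `MP_775b3b_nt.PositiveProportionTwoExtensions`.

Project PQ (helper922), an analogue over `ℚ` of the projects PP and PM of helper874 over `k(t)`. Parts by
helpers 3, 7, 40, 42, 50, 227, 273, 296, 301, 362, 368, 400, 415, 441, 456, 592, 607, 655, 667, 707, 738, 747,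
774, 803, 816, 849, 900, 945, 954, 966, and (Galois cohomology, quadratic steps, from PP and PM) 75, 187,
426, 498, 630, 650, 692, 803, 849.
-/

set_option autoImplicit false
set_option linter.all false

namespace Pool.Agent.Results.MP_78d38b_nt.PositiveProportionAllCurves

open Filter NumberField IsDedekindDomain Pool.Agent.TH115.GD
open scoped Classical

/-- The equation `y ^ 2 = x ^ 3 + A x + B` with integers `A`, `B` defines an elliptic curve, and
there is no prime `p` with `p ^ 4 ∣ A` and `p ^ 6 ∣ B`. Every elliptic curve over `ℚ` is isomorphic to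
exactly one of these. -/
structure IsMinimal (A B : ℤ) : Prop where
  elliptic : 4 * A ^ 3 + 27 * B ^ 2 ≠ 0
  minimal : ∀ p : ℕ, p.Prime → ¬ ((p : ℤ) ^ 4 ∣ A ∧ (p : ℤ) ^ 6 ∣ B)

/-- The height. -/
def height (p : ℤ × ℤ) : ℤ := max (4 * |p.1| ^ 3) (27 * p.2 ^ 2)

/-- The set of all elliptic curves over `ℚ` of height at most `X`. -/
def Curves (X : ℕ) : Set (ℤ × ℤ) := {p | IsMinimal p.1 p.2 ∧ height p ≤ X}

/-- The curve `y ^ 2 = x ^ 3 + A x + B` over `K`. -/
def curve (K : Type) [Field K] (p : ℤ × ℤ) : WeierstrassCurve K := ⟨0, 0, 0, (p.1 : K), (p.2 : K)⟩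

section sha

variable (K : Type) [Field K] [NumberField K] (W : WeierstrassCurve K)

/-- The cocycle `f` of `Gal(Sep K / K)` is a coboundary over the completion of `K` at every maximal
ideal of the ring of integers. -/
def Locally (f : (Sep K ≃ₐ[K] Sep K) → Pt W (Sep K)) : Prop :=
  ∀ v : HeightOneSpectrum (𝓞 K), LocTriv W (Comp (𝓞 K) K v) (Sep (Comp (𝓞 K) K v)) f

/-- The 2-Selmer group is zero: every continuous cocycle with values in the points of order two
which is a coboundary over all completions (at the finite places), with values in all points, is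
the coboundary of a point of order two. -/
def SelTwoZero : Prop :=
  ∀ f : (Sep K ≃ₐ[K] Sep K) → Pt W (Sep K), IsCoc W f → (∀ σ, (2 : ℕ) • f σ = 0) →
    Locally K W f → ∃ T : Pt W (Sep K), (2 : ℕ) • T = 0 ∧ ∀ σ, f σ = act W (rs K σ) T - T

/-- The 2-primary part of the Tate-Shafarevich group is zero: every continuous cocycle whose class
is killed by a power of two and which is a coboundary over all completions (at the finite places) is a
coboundary. -/
def ShaTwoZero : Prop :=
  ∀ f : (Sep K ≃ₐ[K] Sep K) → Pt W (Sep K), IsCoc W f → Locally K W f →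
    (∃ (n : ℕ) (Q : Pt W (Sep K)), ∀ σ, 2 ^ n • f σ = act W (rs K σ) Q - Q) →
    ∃ Q : Pt W (Sep K), ∀ σ, f σ = act W (rs K σ) Q - Q

/-- Trivial 2-Selmer group, trivial 2-primary part of the Tate-Shafarevich group, and a finite group
of points of odd order, over `K`. -/
structure Good (K : Type) [Field K] [NumberField K] (p : ℤ × ℤ) : Prop where
  sel : SelTwoZero K (curve K p)
  sha : ShaTwoZero K (curve K p)
  finite : Finite (Pt (curve K p) K)
  odd : Odd (Nat.card (Pt (curve K p) K))

end sha

theorem crv_iff (X : ℕ) (p : ℤ × ℤ) : Pool.Agent.N922.PQ.Crv X p.1 p.2 ↔ p ∈ Curves X := by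
  constructor
  · rintro ⟨h1, h2, h3, h4⟩
    exact ⟨⟨h1, h2⟩, max_le h3 h4⟩
  · rintro ⟨⟨h1, h2⟩, h3⟩
    exact ⟨h1, h2, (le_max_left _ _).trans h3, (le_max_right _ _).trans h3⟩

theorem nonempty {X : ℕ} (hX : 27 ≤ X) : ((1, 1) : ℤ × ℤ) ∈ Curves X := by
  refine ⟨⟨by norm_num, ?_⟩, ?_⟩
  · rintro p hp ⟨h, -⟩
    have h1 : ((p : ℤ)) ∣ 1 := (dvd_pow_self (p : ℤ) (by norm_num)).trans h
    have h2 : p ∣ 1 := by exact_mod_cast h1
    exact hp.one_lt.ne' (Nat.dvd_one.1 h2)
  · have : height ((1, 1) : ℤ × ℤ) = 27 := by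
      simp [height]
    rw [this]
    exact_mod_cast hX

/-- For every Galois extension `K / ℚ` of degree `2 ^ n` in which `2` splits completely (that is, with
an embedding `K → ℚ_2`) there is `c > 0` such that for all large `X` at least `c` times the number of all
elliptic curves `E` over `ℚ` of height at most `X` have trivial 2-Selmer group over `K`, trivial
2-primary part of `Ш(E / K)` and finite `E(K)` of odd order. -/
theorem result (K : Type) [Field K] [NumberField K] [IsGalois ℚ K] (n : ℕ)
    (hn : Module.finrank ℚ K = 2 ^ n) (h2 : Nonempty (K →+* ℚ_[2])) :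
    (∀ X : ℕ, (Curves X).Finite) ∧
    ∃ c : ℝ, 0 < c ∧ ∀ᶠ X : ℕ in atTop,
      0 < (Curves X).ncard ∧
      c * ((Curves X).ncard : ℝ) ≤ (({p ∈ Curves X | Good K p}).ncard : ℝ) := by
  have hset : ∀ X : ℕ, Curves X = {p : ℤ × ℤ | Pool.Agent.N922.PQ.Crv X p.1 p.2} := by
    intro X
    ext p
    exact (crv_iff X p).symm
  have hfin : ∀ X : ℕ, (Curves X).Finite := fun X => by
    rw [hset]
    exact Pool.Agent.N922.PQ.crv_fin X
  refine ⟨hfin, ?_⟩
  obtain ⟨c, hc, X₀, h⟩ := Pool.Agent.N922.PQ.final K (𝓞 K) hn h2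
  refine ⟨c, hc, ?_⟩
  filter_upwards [eventually_ge_atTop (max X₀ 27)] with X hX
  refine ⟨(Set.ncard_pos (hfin X)).2 ⟨_, nonempty ((le_max_right _ _).trans hX)⟩, ?_⟩
  have h1 := (h X ((le_max_left _ _).trans hX)).2
  rw [← hset] at h1
  refine h1.trans ?_
  have h3 : {p : ℤ × ℤ | Pool.Agent.N922.PQ.Crv X p.1 p.2 ∧
      Pool.Agent.N922.PQ.GoodM (M := K) (𝓞 K) p} ⊆ {p ∈ Curves X | Good K p} := by
    rintro p ⟨hp, hs, hd, hf, hsha⟩
    have hf' : Finite (Pt (curve K p) K) := hf
    exact ⟨(crv_iff X p).1 hp, hs, hsha, hf,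
      Pool.Agent.N922.PQ.odd_card (G := Pt (curve K p) K) hd⟩
  have h4 := Set.ncard_le_ncard h3 ((hfin X).subset fun p hp => hp.1)
  exact_mod_cast h4

end Pool.Agent.Results.MP_78d38b_nt.PositiveProportionAllCurves
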