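import Pool.Agent.N922.PQ.Final
import Pool.Agent.N922.PQ.Odd

/-!
# All Artin twists by representations of a Galois 2-extension `F / ℚ` have rank zero for a positive
# proportion of all elliptic curves over `ℚ`

Let `F / ℚ` be ANY finite Galois extension of 2-power degree in which the prime `2` splits completely
(`F` embeds in `ℚ_2`; no other condition, the Galois group and the ramification are arbitrary).

Theorem. Among ALL elliptic curves `E / ℚ`, ordered by height as in the problem, a positive
proportion has a finite group `E(F)`, of odd order; so `m_ρ(E) = 0` for every representation `ρ` of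
`Gal(F / ℚ)`, at the same time.

The proof. `F = ℚ(γ)`, `γ` a zero of `g`, `δ` a combination of `g` and `g'`. We consider the pairs
`(a, b)` with squarefree `4 a ^ 3 + 27 b ^ 2`, `a > 0`, for which `X ^ 3 + a X + b` is irreducible modulo
the primes in `T` (`2`, `3` and the prime divisors of `δ` are in `T`) and is `X (X ^ 2 + s)` modulo
`Q ∈ S`, `- s` not a square; `S` is a large finite set of primes, `1` modulo `8`, which split
completely in `F`. Let `θ` be a zero, `L = ℚ(θ)`, with ring of integers `ℤ[θ]`. Elements `α` of `L` with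
square norm and even valuations which are squares at the `Q ∈ S` give lattices of rank three
with the unimodular form `c₂(x y / α)` of signature `(2, 1)`, hence (by reduction theory and
Minkowski's theorem) tuples `B` of integers in a box with `chA B = a`, `chB B = b`, with two common
isotropic vectors modulo each `Q ∈ S`; this has probability about `1 / (2 Q ^ 2)` at `Q`, so that the
number of such `(a, b)` is smaller than the number of all by a factor `2 ^ (- |S|)`. The other `(a, b)`
are good. By the quadratic reciprocity law (the product formula for the form `c₂(x ^ 2 / α)`) and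
linear algebra over `F_2` there is a subset `J` of `S` for which the 2-Selmer group over `ℚ` of the
twist by `D = ∏ Q ∈ J, Q` relaxed at the primes in `T` different from `2` is zero. The local conditions
over `F` define a group of elements of `F(θ)` modulo squares, stable under `Gal(F / ℚ)`; a descent
along steps of degree two shows that it is zero because its invariant part lies in the relaxed
Selmer group over `ℚ`. Hence the 2-Selmer group over `F` of the twist is zero. There are at
most `2 ^ |S|` curves of the family for each twist.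

Project PQ (helper922), an analogue over `ℚ` of the projects PP and PM of helper874 over `k(t)`. Parts by
helpers 3, 7, 40, 42, 50, 227, 273, 296, 301, 362, 368, 400, 415, 441, 456, 592, 607, 655, 667, 707, 738, 747,
774, 803, 816, 849, 900, 945, 954, 966, and (Galois cohomology, quadratic steps, from PP and PM) 75, 187,
426, 498, 630, 650, 692, 803, 849.
-/

set_option autoImplicit false
set_option linter.all false

namespace Pool.Agent.Results.MP_775b3b_nt.PositiveProportionTwoExtensions

open Filter NumberField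
open scoped Classical TensorProduct

/-- The equation `y ^ 2 = x ^ 3 + A x + B` with integers `A`, `B` defines an elliptic curve, and
there is no prime `p` with `p ^ 4 ∣ A` and `p ^ 6 ∣ B`. Every elliptic curve over `ℚ` is isomorphic to
exactly one of these. -/
structure IsMinimal (A B : ℤ) : Prop where
  elliptic : 4 * A ^ 3 + 27 * B ^ 2 ≠ 0
  minimal : ∀ p : ℕ, p.Prime → ¬ ((p : ℤ) ^ 4 ∣ A ∧ (p : ℤ) ^ 6 ∣ B)

/-- The height. -/
def height (p : ℤ × ℤ) : ℤ := max (4 * |p.1| ^ 3) (27 * p.2 ^ 2)

/-- The set of all elliptic curves over `ℚ` of height at most `X`. -/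
def Curves (X : ℕ) : Set (ℤ × ℤ) := {p | IsMinimal p.1 p.2 ∧ height p ≤ X}

/-- The curve `y ^ 2 = x ^ 3 + A x + B` over `ℚ`. -/
def curve (p : ℤ × ℤ) : WeierstrassCurve ℚ := ⟨0, 0, 0, (p.1 : ℚ), (p.2 : ℚ)⟩

section mult

variable (F : Type) [Field F] [CharZero F] (p : ℤ × ℤ)

/-- The group `E(F)`. -/
def Pts : Type := ((curve p).baseChange F).toAffine.Point

noncomputable instance instPts : AddCommGroup (Pts F p) :=
  (inferInstance : AddCommGroup ((curve p).baseChange F).toAffine.Point)

/-- The action of `g` in the Galois group on `E(F)`. -/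
noncomputable def act (g : F ≃ₐ[ℚ] F) : Pts F p →+ Pts F p :=
  WeierstrassCurve.Affine.Point.map (W' := (curve p).toAffine) g.toAlgHom

/-- The complex vector space `V_E = E(F) ⊗ ℂ`. -/
def VE : Type := ℂ ⊗[ℤ] Pts F p

noncomputable instance instVE : AddCommGroup (VE F p) :=
  (inferInstance : AddCommGroup (ℂ ⊗[ℤ] Pts F p))

noncomputable instance instVE' : Module ℂ (VE F p) :=
  (inferInstance : Module ℂ (ℂ ⊗[ℤ] Pts F p))

/-- The action of `g` on `V_E`. -/
noncomputable def gal (g : F ≃ₐ[ℚ] F) : VE F p →ₗ[ℂ] VE F p :=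
  LinearMap.baseChange ℂ (act F p g).toIntLinearMap

/-- The space `Hom_G(ρ, V_E)`. -/
def HomG {V : Type} [AddCommGroup V] [Module ℂ V] (ρ : Representation ℂ (F ≃ₐ[ℚ] F) V) :
    Submodule ℂ (V →ₗ[ℂ] VE F p) where
  carrier := {f | ∀ (g : F ≃ₐ[ℚ] F) (v : V), f (ρ g v) = gal F p g (f v)}
  add_mem' := by
    intro f f' h h' g v
    rw [LinearMap.add_apply, LinearMap.add_apply, h g v, h' g v, map_add]
  zero_mem' := by
    intro g v
    rw [LinearMap.zero_apply, LinearMap.zero_apply, map_zero]
  smul_mem' := by
    intro c f h g v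
    rw [LinearMap.smul_apply, LinearMap.smul_apply, h g v, map_smul]

/-- The multiplicity `m_ρ(E) = dim Hom_G(ρ, V_E)`. -/
noncomputable def mult {V : Type} [AddCommGroup V] [Module ℂ V]
    (ρ : Representation ℂ (F ≃ₐ[ℚ] F) V) : Cardinal := Module.rank ℂ (HomG F p ρ)

end mult

/-- `E(F)` is finite, of odd order, and all multiplicities `m_ρ(E)` are zero. -/
structure AllZero (F : Type) [Field F] [CharZero F] (p : ℤ × ℤ) : Prop where
  finite : Finite (Pts F p)
  odd : Odd (Nat.card (Pts F p))
  zero : ∀ (V : Type) [AddCommGroup V] [Module ℂ V] (ρ : Representation ℂ (F ≃ₐ[ℚ] F) V),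
    mult F p ρ = 0

theorem crv_iff (X : ℕ) (p : ℤ × ℤ) : Pool.Agent.N922.PQ.Crv X p.1 p.2 ↔ p ∈ Curves X := by
  constructor
  · rintro ⟨h1, h2, h3, h4⟩
    exact ⟨⟨h1, h2⟩, max_le h3 h4⟩
  · rintro ⟨⟨h1, h2⟩, h3⟩
    exact ⟨h1, h2, (le_max_left _ _).trans h3, (le_max_right _ _).trans h3⟩

theorem nonempty {X : ℕ} (hX : 27 ≤ X) : ((1, 1) : ℤ × ℤ) ∈ Curves X := by
  refine ⟨⟨by norm_num, ?_⟩, ?_⟩
  · rintro p hp ⟨h, -⟩
    have h1 : ((p : ℤ)) ∣ 1 := (dvd_pow_self (p : ℤ) (by norm_num)).trans h
    have h2 : p ∣ 1 := by exact_mod_cast h1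
    exact hp.one_lt.ne' (Nat.dvd_one.1 h2)
  · have : height ((1, 1) : ℤ × ℤ) = 27 := by
      simp [height]
    rw [this]
    exact_mod_cast hX

/-- For every Galois extension `F / ℚ` of degree `2 ^ n` in which `2` splits completely (that is, with
an embedding `F → ℚ_2`) there is `c > 0` such that for all large `X` at least `c` times the number of all
elliptic curves `E` over `ℚ` of height at most `X` have finite `E(F)`, of odd order, and
`m_ρ(E) = 0` for all representations `ρ` of `Gal(F / ℚ)`. -/
theorem result (F : Type) [Field F] [NumberField F] [IsGalois ℚ F] (n : ℕ)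
    (hn : Module.finrank ℚ F = 2 ^ n) (h2 : Nonempty (F →+* ℚ_[2])) :
    (∀ X : ℕ, (Curves X).Finite) ∧
    ∃ c : ℝ, 0 < c ∧ ∀ᶠ X : ℕ in atTop,
      0 < (Curves X).ncard ∧
      c * ((Curves X).ncard : ℝ) ≤ (({p ∈ Curves X | AllZero F p}).ncard : ℝ) := by
  have hset : ∀ X : ℕ, Curves X = {p : ℤ × ℤ | Pool.Agent.N922.PQ.Crv X p.1 p.2} := by
    intro X
    ext p
    exact (crv_iff X p).symm
  have hfin : ∀ X : ℕ, (Curves X).Finite := fun X => by
    rw [hset]
    exact Pool.Agent.N922.PQ.crv_fin X
  refine ⟨hfin, ?_⟩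
  obtain ⟨c, hc, X₀, h⟩ := Pool.Agent.N922.PQ.final F (𝓞 F) hn h2
  refine ⟨c, hc, ?_⟩
  filter_upwards [eventually_ge_atTop (max X₀ 27)] with X hX
  refine ⟨(Set.ncard_pos (hfin X)).2 ⟨_, nonempty ((le_max_right _ _).trans hX)⟩, ?_⟩
  have h1 := (h X ((le_max_left _ _).trans hX)).2
  rw [← hset] at h1
  refine h1.trans ?_
  have h3 : {p : ℤ × ℤ | Pool.Agent.N922.PQ.Crv X p.1 p.2 ∧
      Pool.Agent.N922.PQ.GoodM (M := F) (𝓞 F) p} ⊆ {p ∈ Curves X | AllZero F p} := by
    rintro p ⟨hp, -, hd, hf, -⟩
    refine ⟨(crv_iff X p).1 hp, ?_⟩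
    have e : (Pool.Agent.N874.PP.sW (p.1 : F) (p.2 : F)).baseChange F =
        (curve p).baseChange F := by
      apply WeierstrassCurve.ext <;>
        simp [Pool.Agent.N874.PP.sW, curve, WeierstrassCurve.baseChange]
    have key : ∀ W : WeierstrassCurve F,
        (Pool.Agent.N874.PP.sW (p.1 : F) (p.2 : F)).baseChange F = W →
        Finite W.toAffine.Point ∧ Odd (Nat.card W.toAffine.Point) := by
      rintro W rfl
      haveI : Finite (Pool.Agent.TH115.GD.Pt (Pool.Agent.N874.PP.sW (p.1 : F) (p.2 : F)) F) := hf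
      exact ⟨hf, Pool.Agent.N922.PQ.odd_card
        (G := Pool.Agent.TH115.GD.Pt (Pool.Agent.N874.PP.sW (p.1 : F) (p.2 : F)) F) hd⟩
    obtain ⟨k1', k2'⟩ := key _ e
    have k1 : Finite (Pts F p) := k1'
    have k2 : Odd (Nat.card (Pts F p)) := k2'
    refine ⟨k1, k2, ?_⟩
    intro V _ _ ρ
    -- the tensor product is zero
    have hN : (Nat.card (Pts F p) : ℂ) ≠ 0 := by
      rw [Nat.cast_ne_zero]
      exact k2.pos.ne'
    have hz : ∀ x : VE F p, x = 0 := by
      intro x
      change ℂ ⊗[ℤ] Pts F p at x
      induction x using TensorProduct.induction_on with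
      | zero => rfl
      | tmul z P =>
        have e1 : z ⊗ₜ[ℤ] P = (z / (Nat.card (Pts F p) : ℂ)) ⊗ₜ[ℤ]
            (((Nat.card (Pts F p) : ℕ) : ℤ) • P) := by
          rw [← TensorProduct.smul_tmul]
          congr 1
          rw [zsmul_eq_mul]
          push_cast
          field_simp
        rw [e1, natCast_zsmul, card_nsmul_eq_zero', TensorProduct.tmul_zero]
        rfl
      | add x y hx hy =>
        rw [hx, hy]
        exact add_zero (0 : VE F p)
    have hs : Subsingleton (HomG F p ρ) := by
      refine ⟨fun f f' => ?_⟩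
      apply Subtype.ext
      ext v
      rw [hz ((f : V →ₗ[ℂ] VE F p) v), hz ((f' : V →ₗ[ℂ] VE F p) v)]
    exact rank_subsingleton' ℂ _
  have h4 := Set.ncard_le_ncard h3 ((hfin X).subset fun p hp => hp.1)
  exact_mod_cast h4

end Pool.Agent.Results.MP_775b3b_nt.PositiveProportionTwoExtensions
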