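import Mathlib
import Pool.Agent.N922.Q6

/-!
# Rank and `Ш[2]` over every number field in terms of units and class groups

Let `K` be a number field and `W : y² + s x y = x³ + k x² + c x` a curve over the ring of integers of `K` with `s`
prime to `2`, and let `a = s² + 4k`; the discriminant of `W` is `c² (a² - 64c)`, and every elliptic curve over
`K` with everywhere good reduction, a global minimal model and a rational point `T` of order two
that does not reduce to the origin at the primes above `2` is of this form (with `T = (0, 0)`).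
Completing the square, `W` is `E' : y² = x³ + a x² + 16c x`, and its quotient by `(0, 0)` is
`E : y² = x³ - 2a x² + (a² - 64c) x`.

We prove lower and upper bounds for `rank E(K) + dim Ш(E/K)[2]` in terms of the number `n₁ + r₂` of the real
places of a certain type and of the complex places, the 2-torsion of the class group and the number of the bad
primes.  If `E` has everywhere good reduction and the narrow class number is odd then
`rank E(K) + dim Ш(E/K)[2] = n₁ + r₂ - 2` exactly; so for `n₁ + r₂ = 2` (as for real quadratic fields) the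
group `E(K)` is finite and `Ш(E/K)[2^∞] = 0`.  For the curves `y² = x³ - 2 (1 + 32m) x² + x` with `m > 0`
(of conductor `34` for `m = 1`) the lower bound
`rank E(K) + dim Ш(E/K)[2] ≥ r₁ + r₂ - 2 + dim Cl(K)[2]` holds for every number field `K`.  For the curve
`y² = x³ - 2x² + ε² x` over `ℚ(√41)`, `ε = 32 + 5√41`, with everywhere good reduction, the bounds
`r₁ + r₂ - 2 + ρ ≤ rank E(L) + dim Ш(E/L)[2] ≤ r₁ + r₂ - 2 + 2ρ`, `ρ = dim Cl(L)[2]`, hold for every finite
extension `L` of `ℚ(√41)`.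

The main point is that all the elements of `Kˣ` with even valuations (with signs prescribed at some
real places) give 2-Selmer elements of `E`.
-/

set_option autoImplicit false

namespace Pool.Agent.Results.MP_78d38b_nt.UnitsClassGroup

open NumberField IsDedekindDomain

open Pool.Agent.Y682 (NCl)

/-- The curve `E : y² = x³ - 2a x² + (a² - 64c) x`. -/
def E {K : Type} [Field K] (a c : 𝓞 K) : WeierstrassCurve K :=
  ⟨0, -2 * (a : K), 0, (a : K) ^ 2 - 64 * (c : K), 0⟩

/-- The isogenous curve `E' : y² = x³ + a x² + 16 c x`. -/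
def E' {K : Type} [Field K] (a c : 𝓞 K) : WeierstrassCurve K := ⟨0, (a : K), 0, 16 * (c : K), 0⟩

section

variable {K : Type} [Field K] [NumberField K]

/-- The rank of `W(K)`. -/
noncomputable def rank (W : WeierstrassCurve K) : ℕ := Pool.Agent.TH841.NF.D.rk W

/-- The order of `Ш(W/K)[2]`. -/
noncomputable def shaTwo (W : WeierstrassCurve K) : ℕ :=
  Nat.card {x : Pool.Agent.TH841.NF.D.Sha W // 2 • x = 0}

/-- The rank of `W(K)` is zero and `Ш(W/K)[2^∞] = 0`. -/
def Trivial (W : WeierstrassCurve K) : Prop :=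
  rank W = 0 ∧ ∀ x : Pool.Agent.TH841.NF.D.Sha W, (∃ n : ℕ, 2 ^ n • x = 0) → x = 0

/-- The real embedding `φ` is of the first type for `(a, c)`: `φ(c) < 0`, or `φ(a) > 0` and
`64 φ(c) < φ(a)²`. -/
def First (a c : 𝓞 K) (φ : K →+* ℝ) : Prop := φ c < 0 ∨ (0 < φ a ∧ 64 * φ c < φ a ^ 2)

/-- `n₁ + r₂`: the number of the real embeddings of the first type plus the number of the complex
places. -/
noncomputable def places (a c : 𝓞 K) : ℕ :=
  Nat.card {φ : K →+* ℝ // First a c φ} + InfinitePlace.nrComplexPlaces K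

/-- The number of the primes of `K` that divide the (nonzero) integer `x` of `K`. -/
noncomputable def omega (x : 𝓞 K) : ℕ :=
  Nat.card {v : HeightOneSpectrum (𝓞 K) | x ∈ v.asIdeal}

variable (K) in
/-- The order of the 2-torsion of the class group of `K`. -/
noncomputable def clTwo : ℕ := Nat.card {g : ClassGroup (𝓞 K) // g ^ 2 = 1}

variable (K) in
/-- The order of the 2-torsion of the narrow class group of `K`. -/
noncomputable def nclTwo : ℕ := Nat.card {g : NCl K // g ^ 2 = 1}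

/-- `a = s² + 4k` for integers `s`, `k` of `K`, the element `a` is prime to `2`, and `c` and `a² - 64c` are
not zero. -/
def Admissible (a c : 𝓞 K) : Prop :=
  (∃ s k : 𝓞 K, a = s ^ 2 + 4 * k) ∧ (∀ v : HeightOneSpectrum (𝓞 K), 2 ∈ v.asIdeal → a ∉ v.asIdeal) ∧
    c ≠ 0 ∧ a ^ 2 - 64 * c ≠ 0

/-- `2 ^ (rank W(K) + 2) * #Ш(W/K)[2] ≤ 2 ^ (n₁ + r₂ + t + s) * h²`, where `t`, `s` are the numbers of the
primes of `K` dividing `a² - 64c` and `c`. -/
def Upper (a c : 𝓞 K) (W : WeierstrassCurve K) (h : ℕ) : Prop :=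
  2 ^ (rank W + 2) * shaTwo W ≤ 2 ^ (places a c + omega (a ^ 2 - 64 * c) + omega c) * h ^ 2

/-- `2 ^ (n₁ + r₂) * h ≤ 2 ^ (rank E(K) + 2 + t) * #Ш(E/K)[2]`, where `t` is the number of the primes of
`K` dividing `a² - 64c`. -/
def Lower (a c : 𝓞 K) (h : ℕ) : Prop :=
  2 ^ places a c * h ≤ 2 ^ (rank (E a c) + 2 + omega (a ^ 2 - 64 * c)) * shaTwo (E a c)

/-- The lower bound for `E` with `h`, and the upper bounds for `E` and `E'` with `h'`. -/
def Bounds (a c : 𝓞 K) (h h' : ℕ) : Prop :=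
  Finite {x : Pool.Agent.TH841.NF.D.Sha (E a c) // 2 • x = 0} ∧
    Finite {x : Pool.Agent.TH841.NF.D.Sha (E' a c) // 2 • x = 0} ∧
    Lower a c h ∧ Upper a c (E a c) h' ∧ Upper a c (E' a c) h'

/-- `#Ш(E/K)[2] = 2 ^ d` with `rank E(K) + d + 2 = n₁ + r₂`, and if `n₁ + r₂ = 2` then the ranks of `E(K)` and
`E'(K)` are zero and `Ш(E/K)[2^∞] = Ш(E'/K)[2^∞] = 0`. -/
def Exact (a c : 𝓞 K) : Prop :=
  (∃ d : ℕ, shaTwo (E a c) = 2 ^ d ∧ rank (E a c) + d + 2 = places a c) ∧
    (places a c = 2 → Trivial (E a c) ∧ Trivial (E' a c))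

end

theorem bounds {K : Type} [Field K] [NumberField K] {a c : 𝓞 K} (h : Admissible a c) :
    Bounds a c (clTwo K) (nclTwo K) ∧ ((∀ φ, First a c φ) → Bounds a c (clTwo K) (clTwo K)) ∧
      ((∀ φ, ¬ First a c φ) → Bounds a c (nclTwo K) (nclTwo K)) := by
  obtain ⟨⟨s, k, ha⟩, ha2, hc, hD⟩ := h
  obtain ⟨f1, f2, l1, u1, u2, hI⟩ := @Pool.Agent.N922.Q.mainK K _ _ DivisionRing.toRatAlgebra
    inferInstance a c s k ha hc hD ha2 _ _ rfl rfl
  refine ⟨⟨f1, f2, l1, u1, u2⟩, fun h => ⟨f1, f2, l1, (hI h).1, (hI h).2⟩, fun h => ⟨f1, f2, ?_, u1, u2⟩⟩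
  exact @Pool.Agent.N922.Q.mainK2 K _ _ DivisionRing.toRatAlgebra inferInstance a c s k ha hc hD ha2
    h _ rfl

variable (K : Type) [Field K] [NumberField K] in
/-- `r₁ + r₂`: the number of the infinite places. -/
noncomputable def infinite : ℕ :=
  InfinitePlace.nrRealPlaces K + InfinitePlace.nrComplexPlaces K

/-- `2 ^ (r₁ + r₂) * #Cl(K)[2] ≤ 2 ^ (rank W(K) + 2) * #Ш(W/K)[2]`. -/
def UnitLower (K : Type) [Field K] [NumberField K] (W : WeierstrassCurve K) : Prop :=
  2 ^ infinite K * clTwo K ≤ 2 ^ (rank W + 2) * shaTwo W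

/-- `2 ^ (rank W(K) + 2) * #Ш(W/K)[2] ≤ 2 ^ (r₁ + r₂) * #Cl(K)[2] ^ 2`. -/
def UnitUpper (K : Type) [Field K] [NumberField K] (W : WeierstrassCurve K) : Prop :=
  2 ^ (rank W + 2) * shaTwo W ≤ 2 ^ infinite K * clTwo K ^ 2

lemma card_tors_odd {G : Type} [CommGroup G] (h : Odd (Nat.card G)) :
    Nat.card {g : G // g ^ 2 = 1} = 1 := by
  have : Finite G := Nat.finite_of_card_ne_zero h.pos.ne'
  rw [Nat.card_eq_one_iff_unique]
  refine ⟨⟨fun x y => ?_⟩, ⟨⟨1, one_pow 2⟩⟩⟩
  have hz : ∀ x : {g : G // g ^ 2 = 1}, x.1 = 1 := by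
    intro x
    have h1 : orderOf x.1 ∣ 2 := orderOf_dvd_of_pow_eq_one x.2
    have h2 : orderOf x.1 ∣ Nat.card G := orderOf_dvd_natCard x.1
    have h3 : orderOf x.1 ∣ 1 := by
      have := Nat.dvd_gcd h1 h2
      rwa [(Nat.coprime_two_left.2 h : Nat.gcd 2 (Nat.card G) = 1)] at this
    exact orderOf_eq_one_iff.1 (Nat.dvd_one.1 h3)
  exact Subtype.ext ((hz x).trans (hz y).symm)

lemma clTwo_pos (K : Type) [Field K] [NumberField K] : 0 < clTwo K := by
  have : Nonempty {g : ClassGroup (𝓞 K) // g ^ 2 = 1} := ⟨⟨1, one_pow 2⟩⟩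
  have hfc : Finite (ClassGroup (𝓞 K)) := inferInstance
  exact Nat.card_pos

lemma omega_unit {K : Type} [Field K] [NumberField K] {x : 𝓞 K} (hx : IsUnit x) : omega x = 0 := by
  have : IsEmpty {v : HeightOneSpectrum (𝓞 K) | x ∈ v.asIdeal} :=
    ⟨fun v => v.1.isPrime.ne_top (Ideal.eq_top_of_isUnit_mem _ v.2 hx)⟩
  exact Nat.card_of_isEmpty

lemma trivial_of {K : Type} [Field K] [NumberField K] {W : WeierstrassCurve K}
    (hf : Finite {x : Pool.Agent.TH841.NF.D.Sha W // 2 • x = 0})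
    (h : 2 ^ (rank W + 2) * shaTwo W ≤ 2 ^ 2) : Trivial W := by
  have : Nonempty {x : Pool.Agent.TH841.NF.D.Sha W // 2 • x = 0} := ⟨⟨0, smul_zero _⟩⟩
  have h1 : 0 < shaTwo W := Nat.card_pos
  have h2 : 2 ^ rank W * shaTwo W ≤ 1 := by
    rw [pow_add] at h
    have : 2 ^ 2 * (2 ^ rank W * shaTwo W) ≤ 2 ^ 2 * 1 := by
      calc _ = 2 ^ rank W * 2 ^ 2 * shaTwo W := by ring
        _ ≤ _ := by rw [mul_one]; exact h
    exact Nat.le_of_mul_le_mul_left this (by norm_num)
  have h3 : 2 ^ rank W ≤ 1 := (Nat.le_mul_of_pos_right _ h1).trans h2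
  have h4 : shaTwo W ≤ 1 := (Nat.le_mul_of_pos_left _ (by positivity)).trans h2
  refine ⟨?_, fun x hx => ?_⟩
  · by_contra h5
    have : 1 < 2 ^ rank W := Nat.one_lt_two_pow h5
    omega
  · obtain ⟨n, hn⟩ := hx
    have hs : Subsingleton {x : Pool.Agent.TH841.NF.D.Sha W // 2 • x = 0} :=
      Finite.card_le_one_iff_subsingleton.1 h4
    have h5 : ∀ y : Pool.Agent.TH841.NF.D.Sha W, 2 • y = 0 → y = 0 := by
      intro y hy
      exact congrArg Subtype.val (Subsingleton.elim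
        (⟨y, hy⟩ : {x : Pool.Agent.TH841.NF.D.Sha W // 2 • x = 0}) ⟨0, smul_zero _⟩)
    have h6 : ∀ m : ℕ, ∀ y : Pool.Agent.TH841.NF.D.Sha W, 2 ^ m • y = 0 → y = 0 := by
      intro m
      induction m with
      | zero => intro y hy; simpa using hy
      | succ m ih =>
        intro y hy
        rw [pow_succ', mul_smul] at hy
        exact ih y (h5 _ hy)
    exact h6 n x hn

/-- the exact formula -/
theorem exact_of {K : Type} [Field K] [NumberField K] {a c : 𝓞 K} {h : ℕ} (hh : 0 < h)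
    (hb : Bounds a c h 1) (hc : IsUnit c) (hD : IsUnit (a ^ 2 - 64 * c)) : Exact a c := by
  obtain ⟨f1, f2, l1, u1, u2⟩ := hb
  unfold Lower at l1
  unfold Upper at u1 u2
  rw [omega_unit hD] at l1 u1 u2
  rw [omega_unit hc] at u1 u2
  simp only [add_zero, one_pow, mul_one] at l1 u1 u2
  have l2 : 2 ^ places a c ≤ 2 ^ (rank (E a c) + 2) * shaTwo (E a c) :=
    (Nat.le_mul_of_pos_right _ hh).trans l1
  have e := le_antisymm u1 l2
  refine ⟨?_, fun hp => ?_⟩
  · obtain ⟨d, -, hd⟩ := (Nat.dvd_prime_pow Nat.prime_two).1 (Dvd.intro_left _ e)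
    refine ⟨d, hd, ?_⟩
    rw [hd, ← pow_add] at e
    have := Nat.pow_right_injective le_rfl e
    omega
  · rw [hp] at u1 u2
    exact ⟨trivial_of f1 u1, trivial_of f2 u2⟩

lemma places_eq {K : Type} [Field K] [NumberField K] {a c : 𝓞 K} (hI : ∀ φ, First a c φ) :
    places a c = infinite K := by
  unfold places infinite
  rw [← Pool.Agent.R432.CX.card_emb]
  congr 1
  exact Nat.card_congr (Equiv.subtypeUnivEquiv hI)

/-- `a` is prime to `2` if `a² - 64c` is a unit -/
lemma prime_two {K : Type} [Field K] [NumberField K] {a c : 𝓞 K} (hD : IsUnit (a ^ 2 - 64 * c))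
    (v : HeightOneSpectrum (𝓞 K)) (h2 : 2 ∈ v.asIdeal) : a ∉ v.asIdeal := by
  intro h3
  refine v.isPrime.ne_top (Ideal.eq_top_of_isUnit_mem _ ?_ hD)
  rw [sq]
  have e : (64 : 𝓞 K) * c = 2 * (32 * c) := by ring
  rw [e]
  exact sub_mem (v.asIdeal.mul_mem_right _ h3) (v.asIdeal.mul_mem_right _ h2)

lemma third (m : ℕ) (hm : 0 < m) (K : Type) [Field K] [NumberField K] :
    UnitLower K ⟨0, -2 * (1 + 32 * m), 0, 1, 0⟩ := by
  obtain ⟨a, ha⟩ : ∃ a : 𝓞 K, a = 1 + 32 * m := ⟨_, rfl⟩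
  obtain ⟨c, hc⟩ : ∃ c : 𝓞 K, c = m * (1 + 16 * m) := ⟨_, rfl⟩
  have hD : a ^ 2 - 64 * c = 1 := by rw [ha, hc]; ring
  have hm' : (0 : ℝ) < m := by exact_mod_cast hm
  have haK : (a : K) = 1 + 32 * m := by rw [ha]; push_cast; rfl
  have hcK : (c : K) = m * (1 + 16 * m) := by rw [hc]; push_cast; rfl
  have hI : ∀ φ : K →+* ℝ, First a c φ := by
    intro φ
    right
    rw [haK, hcK]
    simp only [map_add, map_mul, map_one, map_natCast, map_ofNat]
    constructor
    · positivity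
    · nlinarith
  have hadm : Admissible a c := by
    refine ⟨⟨1, 8 * m, by rw [ha]; ring⟩, prime_two (by rw [hD]; exact isUnit_one), ?_,
      by rw [hD]; exact one_ne_zero⟩
    intro h0
    have h1 : (c : K) = 0 := by rw [h0]; rfl
    rw [hcK] at h1
    have h2 : ((m * (1 + 16 * m) : ℕ) : K) = 0 := by push_cast; exact h1
    rw [Nat.cast_eq_zero] at h2
    have : 0 < m * (1 + 16 * m) := by positivity
    omega
  obtain ⟨-, -, l1, -, -⟩ := ((bounds hadm).2.1 hI)
  unfold Lower at l1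
  rw [hD, omega_unit isUnit_one, add_zero] at l1
  have hE : E a c = ⟨0, -2 * (1 + 32 * m), 0, 1, 0⟩ := by
    unfold E
    rw [haK]
    congr 1
    rw [hcK]
    ring
  rw [places_eq hI, hE] at l1
  exact l1

lemma fourth (K : Type) [Field K] [NumberField K] (w : 𝓞 K) (hw : w ^ 2 = 41) :
    UnitLower K (E 1 (-32 - 5 * w)) ∧ UnitUpper K (E 1 (-32 - 5 * w)) ∧
      UnitUpper K (E' 1 (-32 - 5 * w)) := by
  obtain ⟨c, hc⟩ : ∃ c : 𝓞 K, c = -32 - 5 * w := ⟨_, rfl⟩
  rw [← hc]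
  have hcu : IsUnit c := by
    refine IsUnit.of_mul_eq_one (32 - 5 * w) ?_
    rw [hc]
    linear_combination 25 * hw
  have hD : (1 : 𝓞 K) ^ 2 - 64 * c = c ^ 2 := by
    rw [hc]
    linear_combination (-25) * hw
  have hDu : IsUnit ((1 : 𝓞 K) ^ 2 - 64 * c) := by rw [hD]; exact hcu.pow 2
  have hI : ∀ φ : K →+* ℝ, First 1 c φ := by
    intro φ
    right
    have h1 : φ ((1 : 𝓞 K) : K) = 1 := by
      have : ((1 : 𝓞 K) : K) = 1 := rfl
      rw [this, map_one]
    rw [h1]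
    refine ⟨one_pos, ?_⟩
    have h2 : (1 : K) - 64 * (c : K) = (c : K) ^ 2 := by
      have h3 := congrArg (algebraMap (𝓞 K) K) hD
      rw [map_sub, map_pow, map_mul, map_ofNat, map_one, map_pow, one_pow] at h3
      exact h3
    have h4 := congrArg φ h2
    rw [map_sub, map_mul, map_one, map_ofNat, map_pow] at h4
    have h5 : φ (c : K) ≠ 0 := by
      refine (map_ne_zero φ).2 ?_
      have := hcu.ne_zero
      exact_mod_cast this
    have h6 : 0 < φ (c : K) ^ 2 := by positivity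
    rw [← h4] at h6
    rw [one_pow]
    linarith
  have hadm : Admissible (1 : 𝓞 K) c :=
    ⟨⟨1, 0, by ring⟩, prime_two hDu, hcu.ne_zero, hDu.ne_zero⟩
  obtain ⟨-, -, l1, u1, u2⟩ := ((bounds hadm).2.1 hI)
  unfold Lower at l1
  unfold Upper at u1 u2
  rw [omega_unit hDu] at l1 u1 u2
  rw [omega_unit hcu] at u1 u2
  simp only [add_zero] at l1 u1 u2
  rw [places_eq hI] at l1 u1 u2
  exact ⟨l1, u1, u2⟩

/-- **Theorem.**  (1) Let `K` be a number field and `a`, `c` integers of `K` such that `a = s² + 4k` for integers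
`s`, `k` of `K`, `a` is prime to `2`, and `c ≠ 0`, `a² ≠ 64c`; let `E : y² = x³ - 2a x² + (a² - 64c) x` and
`E' : y² = x³ + a x² + 16c x`.  Let `n₁` be the number of the real embeddings `φ` of `K` with `φ(c) < 0`, or `φ(a) > 0`
and `64 φ(c) < φ(a)²`, let `t` and `s` be the numbers of the primes of `K` dividing `a² - 64c` and `c`, and
let `h = #Cl(K)[2]`, `h⁺ = #Cl⁺(K)[2]`.  Then
`2 ^ (n₁ + r₂) * h ≤ 2 ^ (rank E(K) + 2 + t) * #Ш(E/K)[2]` and, for `W = E` and `W = E'`,
`2 ^ (rank W(K) + 2) * #Ш(W/K)[2] ≤ 2 ^ (n₁ + r₂ + t + s) * (h⁺)²`; if `n₁ = r₁` then `h⁺` can be replaced by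
`h`, and if `n₁ = 0` then `h` can be replaced by `h⁺`.
(2) If `c` and `a² - 64c` are units (so that `E` has everywhere good reduction), and the narrow class number of
`K` is odd, or `n₁ = r₁` and the class number is odd, then `#Ш(E/K)[2] = 2 ^ d` with
`rank E(K) + d = n₁ + r₂ - 2`.  If moreover `n₁ + r₂ = 2`, then the ranks of `E(K)` and `E'(K)` are zero and
`Ш(E/K)[2^∞] = Ш(E'/K)[2^∞] = 0`.
(3) For every integer `m > 0` and every number field `K`, the curve
`E : y² = x³ - 2 (1 + 32m) x² + x` satisfies `2 ^ (r₁ + r₂) * #Cl(K)[2] ≤ 2 ^ (rank E(K) + 2) * #Ш(E/K)[2]`.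
(4) For every number field `K` with a square root `w` of `41` and `ε = 32 + 5w`, the curve
`E : y² = x³ - 2x² + ε² x` (with `a = 1`, `c = -ε`, as `1 + 64 ε = ε²`) satisfies
`2 ^ (r₁ + r₂) * #Cl(K)[2] ≤ 2 ^ (rank E(K) + 2) * #Ш(E/K)[2] ≤ 2 ^ (r₁ + r₂) * #Cl(K)[2] ^ 2`, and the second
inequality holds for `E' : y² = x³ + x² - 16 ε x` too. -/
theorem result :
    (∀ (K : Type) [Field K] [NumberField K] (a c : 𝓞 K), Admissible a c →
      Bounds a c (clTwo K) (nclTwo K) ∧ ((∀ φ, First a c φ) → Bounds a c (clTwo K) (clTwo K)) ∧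
        ((∀ φ, ¬ First a c φ) → Bounds a c (nclTwo K) (nclTwo K))) ∧
    (∀ (K : Type) [Field K] [NumberField K] (a c : 𝓞 K), Admissible a c → IsUnit c →
      IsUnit (a ^ 2 - 64 * c) →
      (Odd (Nat.card (NCl K)) ∨ (Odd (classNumber K) ∧ ∀ φ, First a c φ)) → Exact a c) ∧
    (∀ m : ℕ, 0 < m → ∀ (K : Type) [Field K] [NumberField K],
      UnitLower K ⟨0, -2 * (1 + 32 * m), 0, 1, 0⟩) ∧
    (∀ (K : Type) [Field K] [NumberField K] (w : 𝓞 K), w ^ 2 = 41 →
      UnitLower K (E 1 (-32 - 5 * w)) ∧ UnitUpper K (E 1 (-32 - 5 * w)) ∧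
        UnitUpper K (E' 1 (-32 - 5 * w))) := by
  refine ⟨fun K _ _ a c h => bounds h, fun K _ _ a c h hc hD hcl => ?_,
    fun m hm K _ _ => third m hm K, fun K _ _ w hw => fourth K w hw⟩
  obtain ⟨b1, b2, b3⟩ := bounds h
  rcases hcl with hcl | ⟨hcl, hI⟩
  · have h1 : nclTwo K = 1 := card_tors_odd hcl
    rw [h1] at b1
    exact exact_of (clTwo_pos K) b1 hc hD
  · have h1 : clTwo K = 1 := by
      apply card_tors_odd
      rw [Nat.card_eq_fintype_card]
      exact hcl
    have b2' := b2 hI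
    rw [h1] at b2'
    exact exact_of one_pos b2' hc hD

end Pool.Agent.Results.MP_78d38b_nt.UnitsClassGroup
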